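import Pool.Agent.Y382.DN.Stm

/-!
# Project DN, part CTX (helper899)

Being reached in a decomposable circuit is decided by a decomposable circuit.
-/

set_option autoImplicit false

namespace Pool.Agent.Y899.DN.CTX

open Finset Pool.Agent.Y622.NG Pool.Agent.Y382.DN

variable {n s w : ℕ} (C : Dnnf n s w)

/-- the gate `v` is below the gate `i` -/
inductive Bl (v : Fin s) : Fin s → Prop
  | refl : Bl v v
  | or1 (i a b : Fin s) : C.kind i = .or a b → Bl v a → Bl v i
  | or2 (i a b : Fin s) : C.kind i = .or a b → Bl v b → Bl v i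
  | and1 (i a b : Fin s) : C.kind i = .and a b → Bl v a → Bl v i
  | and2 (i a b : Fin s) : C.kind i = .and a b → Bl v b → Bl v i

/-- the variable `k` is read by the gate which decides whether `v` is reached from `i` -/
inductive Sc (v : Fin s) (k : Fin n) : Fin s → Prop
  | or1 (i a b : Fin s) : i ≠ v → C.kind i = .or a b → Sc v k a → Sc v k i
  | or2 (i a b : Fin s) : i ≠ v → C.kind i = .or a b → Sc v k b → Sc v k i
  | and1 (i a b : Fin s) : i ≠ v → C.kind i = .and a b → Sc v k a → Sc v k i
  | and2 (i a b : Fin s) : i ≠ v → C.kind i = .and a b → Bl C v a → k ∈ C.scope b → Sc v k i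
  | and3 (i a b : Fin s) : i ≠ v → C.kind i = .and a b → Sc v k b → Sc v k i
  | and4 (i a b : Fin s) : i ≠ v → C.kind i = .and a b → Bl C v b → k ∈ C.scope a → Sc v k i

theorem bl_scope {v i : Fin s} (h : Bl C v i) : C.scope v ⊆ C.scope i := by
  induction h with
  | refl => exact Finset.Subset.refl _
  | or1 i a b hk _ ih =>
    rw [(C.or_ok i a b hk).2.2.1]
    exact ih.trans subset_union_left
  | or2 i a b hk _ ih =>
    rw [(C.or_ok i a b hk).2.2.1]
    exact ih.trans subset_union_right
  | and1 i a b hk _ ih =>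
    rw [(C.and_ok i a b hk).2.2.1]
    exact ih.trans subset_union_left
  | and2 i a b hk _ ih =>
    rw [(C.and_ok i a b hk).2.2.1]
    exact ih.trans subset_union_right

theorem sc_facts {v i : Fin s} {k : Fin n} (h : Sc C v k i) :
    Bl C v i ∧ k ∈ C.scope i ∧ k ∉ C.scope v := by
  induction h with
  | or1 i a b _ hk _ ih =>
    refine ⟨.or1 i a b hk ih.1, ?_, ih.2.2⟩
    rw [(C.or_ok i a b hk).2.2.1]
    exact mem_union_left _ ih.2.1
  | or2 i a b _ hk _ ih =>
    refine ⟨.or2 i a b hk ih.1, ?_, ih.2.2⟩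
    rw [(C.or_ok i a b hk).2.2.1]
    exact mem_union_right _ ih.2.1
  | and1 i a b _ hk _ ih =>
    refine ⟨.and1 i a b hk ih.1, ?_, ih.2.2⟩
    rw [(C.and_ok i a b hk).2.2.1]
    exact mem_union_left _ ih.2.1
  | and2 i a b _ hk hb hkb =>
    obtain ⟨-, -, h3, h4, -⟩ := C.and_ok i a b hk
    refine ⟨.and1 i a b hk hb, ?_, fun h5 => ?_⟩
    · rw [h3]
      exact mem_union_right _ hkb
    · exact disjoint_left.1 h4 (bl_scope C hb h5) hkb
  | and3 i a b _ hk _ ih =>
    refine ⟨.and2 i a b hk ih.1, ?_, ih.2.2⟩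
    rw [(C.and_ok i a b hk).2.2.1]
    exact mem_union_right _ ih.2.1
  | and4 i a b _ hk hb hkb =>
    obtain ⟨-, -, h3, h4, -⟩ := C.and_ok i a b hk
    refine ⟨.and2 i a b hk hb, ?_, fun h5 => ?_⟩
    · rw [h3]
      exact mem_union_left _ hkb
    · exact disjoint_left.1 h4 hkb (bl_scope C hb h5)

theorem reach_bl {v i : Fin s} {x : Fin n → Bool} : Reach C i x v → ∀ j, Bl C i j → Bl C v j := by
  intro h
  have key : ∀ a b j : Fin s, (∀ i, Bl C a i → Bl C b i) → Bl C a j → Bl C b j := fun a b j h => h j
  have step : ∀ a b : Fin s, Bl C b a → ∀ j, Bl C a j → Bl C b j := by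
    intro a b hab j hj
    induction hj with
    | refl => exact hab
    | or1 i a b hk _ ih => exact .or1 i a b hk ih
    | or2 i a b hk _ ih => exact .or2 i a b hk ih
    | and1 i a b hk _ ih => exact .and1 i a b hk ih
    | and2 i a b hk _ ih => exact .and2 i a b hk ih
  induction h with
  | root => exact fun j hj => hj
  | or v β hv _ ih =>
    obtain ⟨a, b, hk⟩ := hv
    intro j hj
    refine step v _ ?_ j (ih j hj)
    unfold ch
    rw [hk]
    cases β
    · exact .or2 v a b hk .refl
    · exact .or1 v a b hk .refl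
  | left v a b hk _ _ ih =>
    intro j hj
    exact step v a (.and1 v a b hk .refl) j (ih j hj)
  | right v a b hk _ _ ih =>
    intro j hj
    exact step v b (.and2 v a b hk .refl) j (ih j hj)

theorem trans {i a v : Fin s} {x : Fin n → Bool} (h1 : Reach C i x a) (h2 : Reach C a x v) :
    Reach C i x v := by
  induction h2 with
  | root => exact h1
  | or v β hv _ ih => exact .or v β hv ih
  | left v a b hk _ hb ih => exact .left v a b hk ih hb
  | right v a b hk _ hb ih => exact .right v a b hk ih hb

theorem inv {i v : Fin s} {x : Fin n → Bool} (h : Reach C i x v) : v = i ∨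
    (∃ a b, C.kind i = .or a b ∧ (Reach C a x v ∨ Reach C b x v)) ∨
    ∃ a b, C.kind i = .and a b ∧ ((Reach C a x v ∧ C.val b x = true) ∨
      (Reach C b x v ∧ C.val a x = true)) := by
  induction h with
  | root => exact Or.inl rfl
  | or v β hv _ ih =>
    rcases ih with rfl | ⟨a, b, hk, h | h⟩ | ⟨a, b, hk, ⟨h, h'⟩ | ⟨h, h'⟩⟩
    · obtain ⟨a, b, hk⟩ := hv
      refine Or.inr (Or.inl ⟨a, b, hk, ?_⟩)
      unfold ch
      rw [hk]
      cases β
      · exact Or.inr .root
      · exact Or.inl .root
    · exact Or.inr (Or.inl ⟨a, b, hk, Or.inl (.or v β hv h)⟩)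
    · exact Or.inr (Or.inl ⟨a, b, hk, Or.inr (.or v β hv h)⟩)
    · exact Or.inr (Or.inr ⟨a, b, hk, Or.inl ⟨.or v β hv h, h'⟩⟩)
    · exact Or.inr (Or.inr ⟨a, b, hk, Or.inr ⟨.or v β hv h, h'⟩⟩)
  | left v a' b' hk' _ hb ih =>
    rcases ih with rfl | ⟨a, b, hk, h | h⟩ | ⟨a, b, hk, ⟨h, h'⟩ | ⟨h, h'⟩⟩
    · exact Or.inr (Or.inr ⟨a', b', hk', Or.inl ⟨.root, hb⟩⟩)
    · exact Or.inr (Or.inl ⟨a, b, hk, Or.inl (.left v a' b' hk' h hb)⟩)
    · exact Or.inr (Or.inl ⟨a, b, hk, Or.inr (.left v a' b' hk' h hb)⟩)
    · exact Or.inr (Or.inr ⟨a, b, hk, Or.inl ⟨.left v a' b' hk' h hb, h'⟩⟩)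
    · exact Or.inr (Or.inr ⟨a, b, hk, Or.inr ⟨.left v a' b' hk' h hb, h'⟩⟩)
  | right v a' b' hk' _ hb ih =>
    rcases ih with rfl | ⟨a, b, hk, h | h⟩ | ⟨a, b, hk, ⟨h, h'⟩ | ⟨h, h'⟩⟩
    · exact Or.inr (Or.inr ⟨a', b', hk', Or.inr ⟨.root, hb⟩⟩)
    · exact Or.inr (Or.inl ⟨a, b, hk, Or.inl (.right v a' b' hk' h hb)⟩)
    · exact Or.inr (Or.inl ⟨a, b, hk, Or.inr (.right v a' b' hk' h hb)⟩)
    · exact Or.inr (Or.inr ⟨a, b, hk, Or.inl ⟨.right v a' b' hk' h hb, h'⟩⟩)
    · exact Or.inr (Or.inr ⟨a, b, hk, Or.inr ⟨.right v a' b' hk' h hb, h'⟩⟩)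

theorem reach_leaf {i v : Fin s} (hiv : i ≠ v) (hk : C.kind i = .leaf) (x : Fin n → Bool) :
    ¬ Reach C i x v := by
  intro h
  rcases inv C h with h | ⟨a, b, h, -⟩ | ⟨a, b, h, -⟩
  · exact hiv h.symm
  · rw [hk] at h
    cases h
  · rw [hk] at h
    cases h

theorem reach_or {i v a b : Fin s} (hiv : i ≠ v) (hk : C.kind i = .or a b) (x : Fin n → Bool) :
    Reach C i x v ↔ Reach C a x v ∨ Reach C b x v := by
  constructor
  · intro h
    rcases inv C h with h | ⟨a', b', h, h'⟩ | ⟨a', b', h, -⟩
    · exact absurd h.symm hiv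
    · rw [hk] at h
      cases h
      exact h'
    · rw [hk] at h
      cases h
  · have hi : IsOr C i := ⟨a, b, hk⟩
    rintro (h | h)
    · refine trans C (a := a) ?_ h
      have h1 := Reach.or (C := C) (out := i) (x := x) i true hi .root
      unfold ch at h1
      rw [hk] at h1
      exact h1
    · refine trans C (a := b) ?_ h
      have h1 := Reach.or (C := C) (out := i) (x := x) i false hi .root
      unfold ch at h1
      rw [hk] at h1
      exact h1

theorem reach_and {i v a b : Fin s} (hiv : i ≠ v) (hk : C.kind i = .and a b) (x : Fin n → Bool) :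
    Reach C i x v ↔ (Reach C a x v ∧ C.val b x = true) ∨ (Reach C b x v ∧ C.val a x = true) := by
  constructor
  · intro h
    rcases inv C h with h | ⟨a', b', h, h'⟩ | ⟨a', b', h, h'⟩
    · exact absurd h.symm hiv
    · rw [hk] at h
      cases h
    · rw [hk] at h
      cases h
      exact h'
  · rintro (⟨h, h'⟩ | ⟨h, h'⟩)
    · exact trans C (Reach.left i a b hk .root h') h
    · exact trans C (Reach.right i a b hk .root h') h

open Classical in
/-- the variables read by the gate which decides whether `v` is reached from `i` -/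
noncomputable def sc (v i : Fin s) : Finset (Fin n) := univ.filter fun k => Sc C v k i

theorem mem_sc {v i : Fin s} {k : Fin n} : k ∈ sc C v i ↔ Sc C v k i := by
  unfold sc
  simp

theorem sc_self (v : Fin s) : sc C v v = ∅ := by
  rw [Finset.eq_empty_iff_forall_notMem]
  intro k hk
  rw [mem_sc] at hk
  cases hk <;> contradiction

theorem sc_leaf {v i : Fin s} (h : C.kind i = .leaf) : sc C v i = ∅ := by
  rw [Finset.eq_empty_iff_forall_notMem]
  intro k hk
  rw [mem_sc] at hk
  rcases hk with ⟨_, a, b, _, h', _⟩ | ⟨_, a, b, _, h', _⟩ | ⟨_, a, b, _, h', _⟩ |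
    ⟨_, a, b, _, h', _, _⟩ | ⟨_, a, b, _, h', _⟩ | ⟨_, a, b, _, h', _, _⟩ <;>
    (rw [h] at h'; cases h')

theorem sc_or {v i a b : Fin s} (hiv : i ≠ v) (hk : C.kind i = .or a b) :
    sc C v i = sc C v a ∪ sc C v b := by
  ext k
  rw [mem_union, mem_sc, mem_sc, mem_sc]
  constructor
  · intro h
    rcases h with ⟨_, a, b, _, h', h⟩ | ⟨_, a, b, _, h', h⟩ | ⟨_, a, b, _, h', _⟩ |
      ⟨_, a, b, _, h', _, _⟩ | ⟨_, a, b, _, h', _⟩ | ⟨_, a, b, _, h', _, _⟩
    · rw [hk] at h'; cases h'; exact Or.inl h
    · rw [hk] at h'; cases h'; exact Or.inr h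
    all_goals (rw [hk] at h'; cases h')
  · rintro (h | h)
    · exact .or1 i a b hiv hk h
    · exact .or2 i a b hiv hk h

open Classical in
/-- scope of the conjunction for the child `a` with the other child `b` -/
noncomputable def s1 (v a b : Fin s) : Finset (Fin n) :=
  if Bl C v a then sc C v a ∪ C.scope b else ∅

theorem sc_and {v i a b : Fin s} (hiv : i ≠ v) (hk : C.kind i = .and a b) :
    sc C v i = s1 C v a b ∪ s1 C v b a := by
  classical
  ext k
  rw [mem_union, mem_sc]
  have e : ∀ a b : Fin s, k ∈ s1 C v a b ↔ Bl C v a ∧ (Sc C v k a ∨ k ∈ C.scope b) := by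
    intro a b
    unfold s1
    by_cases h : Bl C v a
    · rw [if_pos h, mem_union, mem_sc]
      exact ⟨fun h' => ⟨h, h'⟩, fun h' => h'.2⟩
    · rw [if_neg h]
      exact ⟨fun h' => absurd h' (by simp), fun h' => absurd h'.1 h⟩
  rw [e, e]
  constructor
  · intro h
    rcases h with ⟨_, a, b, _, h', h⟩ | ⟨_, a, b, _, h', h⟩ | ⟨_, a, b, _, h', h⟩ |
      ⟨_, a, b, _, h', h, h2⟩ | ⟨_, a, b, _, h', h⟩ | ⟨_, a, b, _, h', h, h2⟩
    · rw [hk] at h'; cases h'
    · rw [hk] at h'; cases h'
    · rw [hk] at h'; cases h'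
      exact Or.inl ⟨(sc_facts C h).1, Or.inl h⟩
    · rw [hk] at h'; cases h'
      exact Or.inl ⟨h, Or.inr h2⟩
    · rw [hk] at h'; cases h'
      exact Or.inr ⟨(sc_facts C h).1, Or.inl h⟩
    · rw [hk] at h'; cases h'
      exact Or.inr ⟨h, Or.inr h2⟩
  · rintro (⟨h, h' | h'⟩ | ⟨h, h' | h'⟩)
    · exact .and1 i a b hiv hk h'
    · exact .and2 i a b hiv hk h h'
    · exact .and3 i a b hiv hk h'
    · exact .and4 i a b hiv hk h h'

/-! ### the gates -/

/-- the gate number `4 i + r` -/
def P (i : Fin s) (r : Fin 4) : Fin (4 * s) := ⟨4 * i.val + r.val, by omega⟩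

/-- the gate of `C` -/
def A (q : Fin (4 * s)) : Fin s := ⟨q.val / 4, by omega⟩

/-- the type of the gate -/
def R (q : Fin (4 * s)) : Fin 4 := ⟨q.val % 4, by omega⟩

theorem A_P (i : Fin s) (r : Fin 4) : A (P i r) = i := by
  apply Fin.ext
  show (4 * i.val + r.val) / 4 = i.val
  omega

theorem R_P (i : Fin s) (r : Fin 4) : R (P i r) = r := by
  apply Fin.ext
  show (4 * i.val + r.val) % 4 = r.val
  omega

theorem P_ex (q : Fin (4 * s)) : ∃ i r, q = P i r := by
  refine ⟨A q, R q, Fin.ext ?_⟩
  show q.val = 4 * (q.val / 4) + q.val % 4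
  omega

theorem P_lt {i j : Fin s} (h : j < i) (r t : Fin 4) : P j t < P i r := by
  show 4 * j.val + t.val < 4 * i.val + r.val
  have : j.val < i.val := h
  omega

theorem P_lt' {i : Fin s} {r t : Fin 4} (h : t < r) : P i t < P i r := by
  show 4 * i.val + t.val < 4 * i.val + r.val
  have : t.val < r.val := h
  omega

open Classical in
/-- kinds of the gates -/
noncomputable def K (v i : Fin s) : Fin 4 → Gate (4 * s)
  | 0 => match C.kind i with
    | .leaf => .leaf
    | .and a b => .and (P a 0) (P b 0)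
    | .or a b => .or (P a 0) (P b 0)
  | 1 => match C.kind i with
    | .and a b => if Bl C v a then .and (P a 3) (P b 0) else .leaf
    | _ => .leaf
  | 2 => match C.kind i with
    | .and a b => if Bl C v b then .and (P b 3) (P a 0) else .leaf
    | _ => .leaf
  | 3 => if i = v then .leaf else match C.kind i with
    | .leaf => .leaf
    | .and _ _ => .or (P i 1) (P i 2)
    | .or a b => .or (P a 3) (P b 3)

/-- scopes of the gates -/
noncomputable def SC (v i : Fin s) : Fin 4 → Finset (Fin n)
  | 0 => C.scope i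
  | 1 => match C.kind i with
    | .and a b => s1 C v a b
    | _ => ∅
  | 2 => match C.kind i with
    | .and a b => s1 C v b a
    | _ => ∅
  | 3 => sc C v i

open Classical in
/-- values of the gates -/
noncomputable def V (v i : Fin s) (x : Fin n → Bool) : Fin 4 → Bool
  | 0 => C.val i x
  | 1 => match C.kind i with
    | .and a b => if Bl C v a then decide (Reach C a x v) && C.val b x else false
    | _ => false
  | 2 => match C.kind i with
    | .and a b => if Bl C v b then decide (Reach C b x v) && C.val a x else false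
    | _ => false
  | 3 => decide (Reach C i x v)

/-- leaves -/
theorem leafK (v i : Fin s) (r : Fin 4) (h : K C v i r = .leaf) : (SC C v i r).card ≤ w ∧
    ∀ x y, (∀ k ∈ SC C v i r, x k = y k) → V C v i x r = V C v i y r := by
  classical
  fin_cases r
  · simp only [K, SC, V] at h ⊢
    cases hk : C.kind i with
    | leaf => exact C.leaf_ok i hk
    | and a b => rw [hk] at h; cases h
    | or a b => rw [hk] at h; cases h
  · simp only [K, SC, V] at h ⊢
    cases hk : C.kind i with
    | leaf => simp
    | and a b =>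
      rw [hk] at h
      simp only at h ⊢
      by_cases hb : Bl C v a
      · rw [if_pos hb] at h; cases h
      · simp [s1, hb]
    | or a b => simp
  · simp only [K, SC, V] at h ⊢
    cases hk : C.kind i with
    | leaf => simp
    | and a b =>
      rw [hk] at h
      simp only at h ⊢
      by_cases hb : Bl C v b
      · rw [if_pos hb] at h; cases h
      · simp [s1, hb]
    | or a b => simp
  · simp only [K, SC, V] at h ⊢
    by_cases hiv : i = v
    · subst hiv
      rw [sc_self]
      refine ⟨by simp, fun x y _ => ?_⟩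
      rw [decide_eq_true (Reach.root (C := C) (out := i) (x := x)),
        decide_eq_true (Reach.root (C := C) (out := i) (x := y))]
    · rw [if_neg hiv] at h
      cases hk : C.kind i with
      | leaf =>
        rw [sc_leaf C hk]
        refine ⟨by simp, fun x y _ => ?_⟩
        rw [decide_eq_false (reach_leaf C hiv hk x), decide_eq_false (reach_leaf C hiv hk y)]
      | and a b => rw [hk] at h; cases h
      | or a b => rw [hk] at h; cases h

/-- conjunctions -/
theorem andK (v i : Fin s) (r : Fin 4) (p q : Fin (4 * s)) (h : K C v i r = .and p q) :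
    ∃ j t j' t', p = P j t ∧ q = P j' t' ∧ P j t < P i r ∧ P j' t' < P i r ∧
      SC C v i r = SC C v j t ∪ SC C v j' t' ∧ Disjoint (SC C v j t) (SC C v j' t') ∧
      ∀ x, V C v i x r = (V C v j x t && V C v j' x t') := by
  classical
  fin_cases r
  · simp only [Fin.zero_eta, K] at h ⊢
    cases hk : C.kind i with
    | leaf => rw [hk] at h; cases h
    | and a b =>
      rw [hk] at h
      cases h
      obtain ⟨h1, h2, h3, h4, h5⟩ := C.and_ok i a b hk
      exact ⟨a, 0, b, 0, rfl, rfl, P_lt h1 _ _, P_lt h2 _ _, h3, h4, h5⟩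
    | or a b => rw [hk] at h; cases h
  · simp only [Fin.mk_one, K] at h ⊢
    cases hk : C.kind i with
    | leaf => rw [hk] at h; cases h
    | and a b =>
      rw [hk] at h
      simp only at h
      by_cases hb : Bl C v a
      · rw [if_pos hb] at h
        cases h
        obtain ⟨h1, h2, h3, h4, h5⟩ := C.and_ok i a b hk
        refine ⟨a, 3, b, 0, rfl, rfl, P_lt h1 _ _, P_lt h2 _ _, ?_, ?_, fun x => ?_⟩
        · simp only [SC, hk, s1, if_pos hb]
        · simp only [SC]
          rw [disjoint_left] at h4 ⊢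
          intro k hk'
          exact h4 (sc_facts C ((mem_sc C).1 hk')).2.1
        · simp only [V, hk, if_pos hb]
      · rw [if_neg hb] at h; cases h
    | or a b => rw [hk] at h; cases h
  · simp only [Fin.reduceFinMk, K] at h ⊢
    cases hk : C.kind i with
    | leaf => rw [hk] at h; cases h
    | and a b =>
      rw [hk] at h
      simp only at h
      by_cases hb : Bl C v b
      · rw [if_pos hb] at h
        cases h
        obtain ⟨h1, h2, h3, h4, h5⟩ := C.and_ok i a b hk
        refine ⟨b, 3, a, 0, rfl, rfl, P_lt h2 _ _, P_lt h1 _ _, ?_, ?_, fun x => ?_⟩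
        · simp only [SC, hk, s1, if_pos hb]
        · simp only [SC]
          rw [disjoint_comm, disjoint_left] at h4
          rw [disjoint_left]
          intro k hk'
          exact h4 (sc_facts C ((mem_sc C).1 hk')).2.1
        · simp only [V, hk, if_pos hb]
      · rw [if_neg hb] at h; cases h
    | or a b => rw [hk] at h; cases h
  · simp only [Fin.reduceFinMk, K] at h ⊢
    by_cases hiv : i = v
    · rw [if_pos hiv] at h; cases h
    · rw [if_neg hiv] at h
      cases hk : C.kind i with
      | leaf => rw [hk] at h; cases h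
      | and a b => rw [hk] at h; cases h
      | or a b => rw [hk] at h; cases h

/-- disjunctions -/
theorem orK (v i : Fin s) (r : Fin 4) (p q : Fin (4 * s)) (h : K C v i r = .or p q) :
    ∃ j t j' t', p = P j t ∧ q = P j' t' ∧ P j t < P i r ∧ P j' t' < P i r ∧
      SC C v i r = SC C v j t ∪ SC C v j' t' ∧
      ∀ x, V C v i x r = (V C v j x t || V C v j' x t') := by
  classical
  fin_cases r
  · simp only [Fin.zero_eta, K] at h ⊢
    cases hk : C.kind i with
    | leaf => rw [hk] at h; cases h
    | or a b =>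
      rw [hk] at h
      cases h
      obtain ⟨h1, h2, h3, h5⟩ := C.or_ok i a b hk
      exact ⟨a, 0, b, 0, rfl, rfl, P_lt h1 _ _, P_lt h2 _ _, h3, h5⟩
    | and a b => rw [hk] at h; cases h
  · simp only [Fin.mk_one, K] at h ⊢
    cases hk : C.kind i with
    | leaf => rw [hk] at h; cases h
    | and a b =>
      rw [hk] at h
      simp only at h
      split_ifs at h
    | or a b => rw [hk] at h; cases h
  · simp only [Fin.reduceFinMk, K] at h ⊢
    cases hk : C.kind i with
    | leaf => rw [hk] at h; cases h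
    | and a b =>
      rw [hk] at h
      simp only at h
      split_ifs at h
    | or a b => rw [hk] at h; cases h
  · simp only [Fin.reduceFinMk, K] at h ⊢
    by_cases hiv : i = v
    · rw [if_pos hiv] at h; cases h
    · rw [if_neg hiv] at h
      cases hk : C.kind i with
      | leaf => rw [hk] at h; cases h
      | and a b =>
        rw [hk] at h
        cases h
        refine ⟨i, 1, i, 2, rfl, rfl, P_lt' (by decide), P_lt' (by decide), ?_, fun x => ?_⟩
        · simp only [SC, hk]
          exact sc_and C hiv hk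
        · simp only [V, hk]
          rw [Bool.eq_iff_iff, decide_eq_true_iff, reach_and C hiv hk x, Bool.or_eq_true]
          have e : ∀ a b : Fin s, ((if Bl C v a then decide (Reach C a x v) && C.val b x
              else false) = true) ↔ (Reach C a x v ∧ C.val b x = true) := by
            intro a b
            by_cases hb : Bl C v a
            · rw [if_pos hb, Bool.and_eq_true, decide_eq_true_iff]
            · rw [if_neg hb]
              constructor
              · intro h; cases h
              · intro h; exact absurd (reach_bl C h.1 a .refl) hb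
          rw [e, e]
      | or a b =>
        rw [hk] at h
        cases h
        obtain ⟨h1, h2, h3, h5⟩ := C.or_ok i a b hk
        refine ⟨a, 3, b, 3, rfl, rfl, P_lt h1 _ _, P_lt h2 _ _, ?_, fun x => ?_⟩
        · simp only [SC]
          exact sc_or C hiv hk
        · simp only [V]
          rw [Bool.eq_iff_iff, decide_eq_true_iff, reach_or C hiv hk x, Bool.or_eq_true,
            decide_eq_true_iff, decide_eq_true_iff]

/-- the circuit which decides whether `v` is reached -/
noncomputable def D (v : Fin s) : Dnnf n (4 * s) w where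
  kind q := K C v (A q) (R q)
  scope q := SC C v (A q) (R q)
  val q x := V C v (A q) x (R q)
  leaf_ok q h := leafK C v (A q) (R q) h
  and_ok := by
    intro q p p' h
    obtain ⟨i, r, rfl⟩ := P_ex q
    rw [A_P, R_P] at h
    obtain ⟨j, t, j', t', rfl, rfl, h1, h2, h3, h4, h5⟩ := andK C v i r p p' h
    simp only [A_P, R_P]
    exact ⟨h1, h2, h3, h4, h5⟩
  or_ok := by
    intro q p p' h
    obtain ⟨i, r, rfl⟩ := P_ex q
    rw [A_P, R_P] at h
    obtain ⟨j, t, j', t', rfl, rfl, h1, h2, h3, h5⟩ := orK C v i r p p' h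
    simp only [A_P, R_P]
    exact ⟨h1, h2, h3, h5⟩

theorem t_CTX : S_CTX := by
  classical
  intro n s w C out v
  refine ⟨D C v, P out 3, ?_, ?_, fun x => ?_⟩
  · show Disjoint (SC C v (A (P out 3)) (R (P out 3))) (C.scope v)
    rw [A_P, R_P]
    simp only [SC]
    rw [disjoint_left]
    intro k hk
    exact (sc_facts C ((mem_sc C).1 hk)).2.2
  · show SC C v (A (P out 3)) (R (P out 3)) ⊆ C.scope out
    rw [A_P, R_P]
    simp only [SC]
    intro k hk
    exact (sc_facts C ((mem_sc C).1 hk)).2.1
  · show V C v (A (P out 3)) x (R (P out 3)) = true ↔ Reach C out x v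
    rw [A_P, R_P]
    simp only [V]
    exact decide_eq_true_iff

end Pool.Agent.Y899.DN.CTX
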